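import Mathlib
import Pool.Agent.H204R3.GP.Defs
import Pool.Agent.H204R3.GP.MTDefs
import Pool.Agent.H204R3.GP.MT
import Pool.Agent.H204R3.GP.MTFamilies

/-!
# The Mumford-Tate conjecture for abelian varieties with one Frobenius element of signature prime
to an odd prime

Let `A` be an abelian variety over a finitely generated subfield `K` of the complex numbers, of any
dimension and with arbitrary endomorphisms.  Suppose that `A` has good reduction at ONE closed point
`v` (of a model of `K`, with residue field of `p ^ a` elements) such that the characteristic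
polynomial of the Frobenius element is the product of the minimal polynomials of Weil numbers `π i`
with the following properties.

* `F i = ℚ(π i)` is a CM field of degree `2 r ^ k`, for a fixed odd prime `r`, which contains an
  imaginary quadratic field `ℚ(δ i)`; these are different for different `i`;
* the signature of `π i` over `ℚ(δ i)` is prime to `r` (`SignaturePrimeTo`); for `A` ordinary at `v`
  this means that the number of unit roots over a fixed embedding of `ℚ(δ i)` is, if `k > 0`, not
  divisible by `r`.

Then, for all primes `ℓ` not divisible by `v`, all Tate classes in the tensor powers of `H^1` (and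
so in the cohomology of all powers of `A`) are linear combinations of Hodge classes, and even of
products of Hodge classes of degree two.  Together with the theorem of Deligne (Hodge classes are
Tate classes) this is the equality of the Mumford-Tate group (over `ℚ_ℓ`) and of the connected
component of the `ℓ`-adic monodromy group: both are reductive (Faltings), so that they are determined
by their invariants in the spaces `(H^1)^{⊗ 2 m}(m)`.  So the Mumford-Tate conjecture holds for `A`
and for all motives in the tannakian category generated by `H^1(A)`.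

In the Lean statement `W` is `H_1(A, ℚ)`, `T` the tangent space at the origin and `per : W → T` the
inclusion, `ω₀` is the form given by a polarization; `V` is the rational Tate module with the
comparison map `comp : W → V`, the action `ρ` of the Galois group and the Weil pairing `ω`; `χ` is
the cyclotomic character and `γ` the Frobenius element at `v`.  The hypotheses `hss` and `hF` are the
theorems of Faltings.

The proof.  By the slopes and the hypothesis on the family, the conjugates of the Weil numbers satisfy
no multiplicative relations besides `π * conj π = q`.  So the Lie algebra of the endomorphisms of `V`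
that kill all Tate classes contains a Cartan subalgebra of the symplectic Lie algebra; over a finite
extension of `ℚ_ℓ` it is a product of symplectic and general linear Lie algebras, and the first
fundamental theorems for these show that the Tate classes are generated in degree two.
-/

namespace Pool.Agent.Results.MP_de8692_ag.SignatureFrobeniusMumfordTate

open NumberField Module Pool.Agent.H204R3.GP

/-- The Mumford-Tate conjecture, if the characteristic polynomial of one element `γ` of the Galois
group is the product of the minimal polynomials of the members of such a family of Weil numbers. -/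
theorem result (ℓ p : ℕ) [Fact ℓ.Prime] [Fact p.Prime] (a : ℕ) (ha : 0 < a) (r : ℕ) [Fact r.Prime]
    (hr : r ≠ 2)
    {ι : Type} [Fintype ι] (F : ι → Type) [∀ i, Field (F i)] [∀ i, NumberField (F i)]
    [∀ i, IsCMField (F i)] (π δ : ∀ i, F i) (d : ι → ℕ)
    (hπ : SignatureFamily r p a π δ d)
    -- the complex torus `A(ℂ)` with a polarization
    {W T : Type} [AddCommGroup W] [Module ℚ W] [AddCommGroup T] [Module ℂ T] (per : W →+ T)
    (ω₀ : W →ₗ[ℚ] W →ₗ[ℚ] ℚ) (hω₀ : IsHodgeBilinear per ω₀)
    -- the Tate module
    {V : Type} [AddCommGroup V] [Module ℚ_[ℓ] V] [FiniteDimensional ℚ_[ℓ] V] (comp : W →+ V)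
    {Γ : Type} [Group Γ] (ρ : Representation ℚ_[ℓ] Γ V) (χ : Γ →* ℚ_[ℓ])
    (ω : V →ₗ[ℚ_[ℓ]] V →ₗ[ℚ_[ℓ]] ℚ_[ℓ]) (halt : ∀ v, ω v v = 0)
    (hnondeg : ∀ u, (∀ v, ω v u = 0) → u = 0)
    (hω : ∀ s u v, ω (ρ s u) (ρ s v) = χ s * ω u v)
    (hωω : ∀ x y, ω (comp x) (comp y) = ((ω₀ x y : ℚ) : ℚ_[ℓ]))
    (hss : FiniteIndexSemisimple ρ) (hF : FaltingsEnd per comp ρ)
    (γ : Γ) (hχ : χ γ = (p : ℚ_[ℓ]) ^ a)
    (hγ : (ρ γ).charpoly = ∏ i, (minpoly ℚ (π i)).map (algebraMap ℚ ℚ_[ℓ])) :
    MumfordTateStrong per comp ρ χ := by
  have hss' : ∀ Δ : Subgroup Γ, Δ.FiniteIndex → SemiUnder (ρ '' (Δ : Set Γ)) := by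
    intro Δ hΔ U hU
    obtain ⟨U', h1, h2⟩ := hss Δ hΔ U (fun s hs u hu => hU _ ⟨s, hs, rfl⟩ u hu)
    refine ⟨U', ?_, h2⟩
    rintro _ ⟨s, hs, rfl⟩ u hu
    exact h1 s hs u hu
  have hnd' : ∀ u, (∀ v, ω u v = 0) → u = 0 := by
    intro u hu
    apply hnondeg
    intro v
    have h1 := halt (u + v)
    simp only [map_add, LinearMap.add_apply, halt, hu, zero_add, add_zero] at h1
    exact h1
  obtain ⟨L, hL1, hL2, j, h⟩ := Pool.Agent.H204R3.CM.exists_galois F
  let jp : L →ₐ[ℚ] PadicAlgCl p := IsAlgClosed.lift
  obtain ⟨k, hk⟩ := Classical.axiomOfChoice hπ.deg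
  have hneat := neat_of_signature j h (jp : L →+* PadicAlgCl p) hπ.weil r hr k hk δ d hπ.pos hπ.sq
    hπ.dist hπ.sig
  exact mumfordTate_of per comp ρ χ ω hnd' hω ω₀ hω₀ hωω hF fun m φ hφ => tate_of_neat ha hπ.gen
    hπ.weil j h hneat ρ χ ω halt hnondeg hω hss' γ hχ hγ φ hφ

end Pool.Agent.Results.MP_de8692_ag.SignatureFrobeniusMumfordTate
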